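import Pool.Agent.H47.Amal.Real

/-!
The class of the permutations which avoid 3142 is 2-amalgamable.
-/

namespace Pool.Agent.Results.MP_d55b77_co.Av3142

open Pool.Agent.H47.Amal

/-- A finite permutation, together with its size. Its points are the positions. -/
abbrev FinPerm : Type := Σ n : ℕ, Equiv.Perm (Fin n)

/-- `f` is an embedding of `α` in `π`: it preserves (strictly) the order by position and the
order by value. -/
def IsEmb {m n : ℕ} (α : Equiv.Perm (Fin m)) (π : Equiv.Perm (Fin n)) (f : Fin m → Fin n) :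
    Prop :=
  (∀ i j, i < j → f i < f j) ∧ ∀ i j, α i < α j → π (f i) < π (f j)

/-- The permutation `π` contains the pattern `α`. -/
def Contains (π α : FinPerm) : Prop := ∃ f : Fin α.1 → Fin π.1, IsEmb α.2 π.2 f

/-- Permutation classes: sets of permutations closed under taking patterns. -/
def IsPermClass (C : Set FinPerm) : Prop := ∀ π ∈ C, ∀ α, Contains π α → α ∈ C

/-- The permutations which contain no pattern from `B`. -/
def Avoid (B : Set FinPerm) : Set FinPerm := {π | ∀ β ∈ B, ¬ Contains π β}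

/-- `C` is `α`-amalgamable. -/
def AmalgamableOver (C : Set FinPerm) (α : FinPerm) : Prop :=
  ∀ π ∈ C, ∀ σ ∈ C, ∀ (f : Fin α.1 → Fin π.1) (g : Fin α.1 → Fin σ.1),
    IsEmb α.2 π.2 f → IsEmb α.2 σ.2 g →
    ∃ τ ∈ C, ∃ (f' : Fin π.1 → Fin τ.1) (g' : Fin σ.1 → Fin τ.1),
      IsEmb π.2 τ.2 f' ∧ IsEmb σ.2 τ.2 g' ∧ f' ∘ f = g' ∘ g

/-- `C` is `k`-amalgamable: it is `α`-amalgamable for all its members `α` of size at most `k`. -/
def KAmalgamable (k : ℕ) (C : Set FinPerm) : Prop := ∀ α ∈ C, α.1 ≤ k → AmalgamableOver C α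

/-- The permutation 2413. -/
def p2413 : FinPerm := ⟨4, ⟨![1, 3, 0, 2], ![2, 0, 3, 1], by decide, by decide⟩⟩

/-- The permutation 3142. -/
def p3142 : FinPerm := ⟨4, ⟨![2, 0, 3, 1], ![1, 3, 0, 2], by decide, by decide⟩⟩

/-- The separable permutations. -/
def Sep : Set FinPerm := Avoid {p2413, p3142}

/-! ### Auxiliary facts -/

theorem emb_comp {l m n : ℕ} {α : Equiv.Perm (Fin l)} {π : Equiv.Perm (Fin m)}
    {σ : Equiv.Perm (Fin n)} {f : Fin l → Fin m} {g : Fin m → Fin n} (hf : IsEmb α π f)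
    (hg : IsEmb π σ g) : IsEmb α σ (g ∘ f) :=
  ⟨fun i j h => hg.1 _ _ (hf.1 i j h), fun i j h => hg.2 _ _ (hf.2 i j h)⟩

theorem isPermClass_avoid (B : Set FinPerm) : IsPermClass (Avoid B) := by
  rintro π hπ α ⟨f, hf⟩ β hβ ⟨g, hg⟩
  exact hπ β hβ ⟨f ∘ g, emb_comp hg hf⟩

/-- Positions and values as rational coordinates. -/
theorem av_iff {n : ℕ} (π : Equiv.Perm (Fin n)) :
    (⟨n, π⟩ : FinPerm) ∈ Avoid {p3142} ↔
      Av (fun i : Fin n => ((i : ℕ) : ℚ)) (fun i => ((π i : ℕ) : ℚ)) := by
  constructor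
  · intro h a b c d k1 k2 k3 k4 k5 k6
    simp only [Nat.cast_lt, Fin.val_fin_lt] at k1 k2 k3 k4 k5 k6
    refine h p3142 rfl ⟨![a, b, c, d], ?_, ?_⟩
    · have h1 := k1.trans k2
      have h2 := k2.trans k3
      have h3 := h1.trans k3
      intro i j hij
      change Fin 4 at i
      change Fin 4 at j
      fin_cases i <;> fin_cases j <;> first | exact absurd hij (by decide) | assumption
    · have h1 := k4.trans k5
      have h2 := k5.trans k6
      have h3 := h1.trans k6
      intro i j hij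
      change Fin 4 at i
      change Fin 4 at j
      fin_cases i <;> fin_cases j <;> first | exact absurd hij (by decide) | assumption
  · rintro h β hβ ⟨f, hf⟩
    rw [Set.mem_singleton_iff] at hβ
    subst hβ
    have e : ∀ i j : Fin 4, i < j → (((f i : Fin n) : ℕ) : ℚ) < (((f j : Fin n) : ℕ) : ℚ) := by
      intro i j hij
      simp only [Nat.cast_lt, Fin.val_fin_lt]
      exact hf.1 i j hij
    have e' : ∀ i j : Fin 4, p3142.2 i < p3142.2 j →
        (((π (f i) : Fin n) : ℕ) : ℚ) < (((π (f j) : Fin n) : ℕ) : ℚ) := by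
      intro i j hij
      simp only [Nat.cast_lt, Fin.val_fin_lt]
      exact hf.2 i j hij
    exact h (f (0 : Fin 4)) (f (1 : Fin 4)) (f (2 : Fin 4)) (f (3 : Fin 4))
      (e 0 1 (by decide)) (e 1 2 (by decide)) (e 2 3 (by decide))
      (e' 1 3 (by decide)) (e' 3 0 (by decide)) (e' 0 2 (by decide))

theorem cast_inj (n : ℕ) : Function.Injective (fun i : Fin n => ((i : ℕ) : ℚ)) := by
  intro i j h
  simp only [Nat.cast_inj] at h
  exact Fin.ext h

theorem cast_inj' {n : ℕ} (π : Equiv.Perm (Fin n)) :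
    Function.Injective (fun i : Fin n => ((π i : ℕ) : ℚ)) := by
  intro i j h
  simp only [Nat.cast_inj] at h
  exact π.injective (Fin.ext h)

/-- From an amalgam of point sets to an amalgam of permutations. -/
theorem exists_amalgam {m n : ℕ} {π : Equiv.Perm (Fin m)} {σ : Equiv.Perm (Fin n)}
    {R : Fin m → Fin n → Prop}
    (h : AmalgR (fun i : Fin m => ((i : ℕ) : ℚ)) (fun i => ((π i : ℕ) : ℚ))
      (fun i : Fin n => ((i : ℕ) : ℚ)) (fun i => ((σ i : ℕ) : ℚ)) R) :
    ∃ τ ∈ Avoid {p3142}, ∃ (f' : Fin m → Fin τ.1) (g' : Fin n → Fin τ.1),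
      IsEmb π τ.2 f' ∧ IsEmb σ τ.2 g' ∧ ∀ a b, R a b → f' a = g' b := by
  obtain ⟨F, G, F', G', h1, h2, h3, h4, h5, h6, h7⟩ := h
  have r1 : ∀ a b : Fin m, F a = F b ↔ G a = G b := by
    intro a b
    have c1 : F a = F b ↔ a = b := by
      constructor
      · intro hab
        rcases lt_trichotomy a b with h' | h' | h'
        · have := h1 a b (by simpa using h')
          linarith
        · exact h'
        · have := h1 b a (by simpa using h')
          linarith
      · rintro rfl
        rfl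
    have c2 : G a = G b ↔ a = b := by
      constructor
      · intro hab
        rcases lt_trichotomy (π a) (π b) with h' | h' | h'
        · have := h2 a b (by simpa using h')
          linarith
        · exact π.injective h'
        · have := h2 b a (by simpa using h')
          linarith
      · rintro rfl
        rfl
    rw [c1, c2]
  have r2 : ∀ a b : Fin n, F' a = F' b ↔ G' a = G' b := by
    intro a b
    have c1 : F' a = F' b ↔ a = b := by
      constructor
      · intro hab
        rcases lt_trichotomy a b with h' | h' | h'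
        · have := h3 a b (by simpa using h')
          linarith
        · exact h'
        · have := h3 b a (by simpa using h')
          linarith
      · rintro rfl
        rfl
    have c2 : G' a = G' b ↔ a = b := by
      constructor
      · intro hab
        rcases lt_trichotomy (σ a) (σ b) with h' | h' | h'
        · have := h4 a b (by simpa using h')
          linarith
        · exact σ.injective h'
        · have := h4 b a (by simpa using h')
          linarith
      · rintro rfl
        rfl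
    rw [c1, c2]
  obtain ⟨N, τ, r, s1, s2, s3⟩ := exists_perm (Sum.elim F F') (Sum.elim G G') (by
    rintro (a | a) (b | b)
    · exact r1 a b
    · exact h6 a b
    · constructor
      · intro h
        exact ((h6 b a).1 h.symm).symm
      · intro h
        exact ((h6 b a).2 h.symm).symm
    · exact r2 a b)
  refine ⟨⟨N, τ⟩, ?_, fun a => r (Sum.inl a), fun b => r (Sum.inr b), ?_, ?_, ?_⟩
  · rw [av_iff]
    intro a b c d k1 k2 k3 k4 k5 k6
    simp only [Nat.cast_lt, Fin.val_fin_lt] at k1 k2 k3 k4 k5 k6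
    obtain ⟨wa, rfl⟩ := s1 a
    obtain ⟨wb, rfl⟩ := s1 b
    obtain ⟨wc, rfl⟩ := s1 c
    obtain ⟨wd, rfl⟩ := s1 d
    exact h7 wa wb wc wd ((s2 _ _).2 k1) ((s2 _ _).2 k2) ((s2 _ _).2 k3) ((s3 _ _).2 k4)
      ((s3 _ _).2 k5) ((s3 _ _).2 k6)
  · refine ⟨fun i j hij => (s2 _ _).1 (h1 i j (by simpa using hij)), fun i j hij =>
      (s3 _ _).1 (h2 i j (by simpa using hij))⟩
  · refine ⟨fun i j hij => (s2 _ _).1 (h3 i j (by simpa using hij)), fun i j hij =>
      (s3 _ _).1 (h4 i j (by simpa using hij))⟩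
  · intro a b hab
    have hF : F a = F' b := (h5 a b hab).1
    rcases lt_trichotomy (r (Sum.inl a)) (r (Sum.inr b)) with h' | h' | h'
    · have : F a < F' b := (s2 (Sum.inl a) (Sum.inr b)).2 h'
      linarith
    · exact h'
    · have : F' b < F a := (s2 (Sum.inr b) (Sum.inl a)).2 h'
      linarith

theorem kAmalgamable : KAmalgamable 2 (Avoid {p3142}) := by
  rintro ⟨k, α⟩ _ hk ⟨m, π⟩ hπ ⟨n, σ⟩ hσ f g hf hg
  rw [av_iff] at hπ hσ
  simp only at hk f g hf hg
  have iX := cast_inj m
  have iY := cast_inj' π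
  have iX' := cast_inj n
  have iY' := cast_inj' σ
  rcases (by omega : k = 0 ∨ k = 1 ∨ k = 2) with rfl | rfl | rfl
  · obtain ⟨τ, hτ, f', g', e1, e2, _⟩ := exists_amalgam (amalg_zero iX iY iX' iY' hπ hσ)
    refine ⟨τ, hτ, f', g', e1, e2, ?_⟩
    funext i
    exact i.elim0
  · obtain ⟨τ, hτ, f', g', e1, e2, e3⟩ :=
      exists_amalgam (amalg_one (f 0) (g 0) iX iY iX' iY' hπ hσ)
    refine ⟨τ, hτ, f', g', e1, e2, ?_⟩
    funext i
    have hi : i = 0 := Subsingleton.elim _ _
    rw [hi]
    exact e3 _ _ ⟨rfl, rfl⟩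
  · have hfx : f 0 < f 1 := hf.1 0 1 (by decide)
    have hgx : g 0 < g 1 := hg.1 0 1 (by decide)
    have hα : α 0 ≠ α 1 := fun h => absurd (α.injective h) (by decide)
    have hord : (π (f 0) < π (f 1) ∧ σ (g 0) < σ (g 1)) ∨
        (π (f 1) < π (f 0) ∧ σ (g 1) < σ (g 0)) := by
      rcases lt_or_gt_of_ne hα with h | h
      · exact Or.inl ⟨hf.2 _ _ h, hg.2 _ _ h⟩
      · exact Or.inr ⟨hf.2 _ _ h, hg.2 _ _ h⟩
    obtain ⟨τ, hτ, f', g', e1, e2, e3⟩ :=
      exists_amalgam (amalg_two (x := f 0) (y := f 1) (x' := g 0) (y' := g 1)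
        iX iY iX' iY' hπ hσ (by simpa using hfx) (by simpa using hgx) (by simpa using hord))
    refine ⟨τ, hτ, f', g', e1, e2, ?_⟩
    funext i
    fin_cases i
    · exact e3 _ _ (Or.inl ⟨rfl, rfl⟩)
    · exact e3 _ _ (Or.inr ⟨rfl, rfl⟩)

theorem emb_refl {n : ℕ} (π : Equiv.Perm (Fin n)) : IsEmb π π id :=
  ⟨fun _ _ h => h, fun _ _ h => h⟩

theorem not_contains : ¬ Contains p2413 p3142 := by
  rintro ⟨f, hf1, hf2⟩
  change Fin 4 → Fin 4 at f
  have h01 := hf1 (0 : Fin 4) (1 : Fin 4) (by decide)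
  have h12 := hf1 (1 : Fin 4) (2 : Fin 4) (by decide)
  have h23 := hf1 (2 : Fin 4) (3 : Fin 4) (by decide)
  have e0 : f 0 = 0 := by
    apply Fin.ext
    change ((f 0 : Fin 4) : ℕ) < ((f 1 : Fin 4) : ℕ) at h01
    change ((f 1 : Fin 4) : ℕ) < ((f 2 : Fin 4) : ℕ) at h12
    change ((f 2 : Fin 4) : ℕ) < ((f 3 : Fin 4) : ℕ) at h23
    have := (f 3).isLt
    show ((f 0 : Fin 4) : ℕ) = 0
    omega
  have e1 : f 1 = 1 := by
    apply Fin.ext
    change ((f 0 : Fin 4) : ℕ) < ((f 1 : Fin 4) : ℕ) at h01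
    change ((f 1 : Fin 4) : ℕ) < ((f 2 : Fin 4) : ℕ) at h12
    change ((f 2 : Fin 4) : ℕ) < ((f 3 : Fin 4) : ℕ) at h23
    have := (f 3).isLt
    show ((f 1 : Fin 4) : ℕ) = 1
    omega
  have h := hf2 (1 : Fin 4) (0 : Fin 4) (by decide)
  change p2413.2 (f 1) < p2413.2 (f 0) at h
  rw [e0, e1] at h
  exact absurd h (by decide)

/-- The class of the permutations avoiding 3142 is a 2-amalgamable permutation class, it is not
contained in the class of the separable permutations and it is not the class of all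
permutations. -/
theorem result : IsPermClass (Avoid {p3142}) ∧ KAmalgamable 2 (Avoid {p3142}) ∧
    ¬ Avoid {p3142} ⊆ Sep ∧ Avoid {p3142} ≠ Set.univ := by
  refine ⟨isPermClass_avoid _, kAmalgamable, ?_, ?_⟩
  · intro h
    have h1 : p2413 ∈ Avoid {p3142} := by
      intro β hβ
      rw [Set.mem_singleton_iff] at hβ
      subst hβ
      exact not_contains
    exact h h1 p2413 (Or.inl rfl) ⟨id, emb_refl _⟩
  · intro h
    have h1 : p3142 ∈ Avoid {p3142} := by
      rw [h]
      trivial
    exact h1 p3142 rfl ⟨id, emb_refl _⟩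

end Pool.Agent.Results.MP_d55b77_co.Av3142
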